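import Pool.Agent.Lib_MP_5dc1dd_co.Defs

open Set

namespace Pool.Agent.LibMP5dc1dd

theorem not_reducible_of_five_cycle {ι : Type} (T : ι → Set Plane)
    (hT : IsMultipleTiling T 2) (i : Fin 5 → ι) (p : Fin 5 → Plane)
    (hgen : ∀ k j, p k ∉ frontier (T j))
    (h1 : ∀ k, p k ∈ interior (T (i k))) (h2 : ∀ k, p k ∈ interior (T (i (k + 1))))
    (hne : ∀ k, i k ≠ i (k + 1)) : ¬ IsReducible T 2 := by
  rintro ⟨κ, c, -, hc⟩
  have key : ∀ k, c (i k) ≠ c (i (k + 1)) := by
    intro k heq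
    obtain ⟨e, he, hE⟩ := hc (c (i k)) ⟨_, rfl⟩
    have hd := hE.density (p k) (fun j => hgen k j.1)
    have hle : (2 : ℕ∞) ≤ {j : {j // c j = c (i k)} | p k ∈ interior (T j.1)}.encard := by
      have hsub : ({⟨i k, rfl⟩, ⟨i (k + 1), heq.symm⟩} : Set {j // c j = c (i k)}) ⊆
          {j | p k ∈ interior (T j.1)} := by
        intro j hj
        rcases hj with rfl | rfl
        · exact h1 k
        · exact h2 k
      have hne' : (⟨i k, rfl⟩ : {j // c j = c (i k)}) ≠ ⟨i (k + 1), heq.symm⟩ := by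
        intro h
        exact hne k (congrArg Subtype.val h)
      calc (2 : ℕ∞) = _ := (Set.encard_pair hne').symm
        _ ≤ _ := Set.encard_le_encard hsub
    rw [hd] at hle
    have : 2 ≤ e := by exact_mod_cast hle
    omega
  have hall := hT.density (p 0) (hgen 0)
  have hfin : {j | p 0 ∈ interior (T j)}.Finite := by
    apply Set.finite_of_encard_eq_coe (k := 2)
    rw [hall]
  have hpair : ({i 0, i 1} : Set ι) = {j | p 0 ∈ interior (T j)} := by
    apply Set.Finite.eq_of_subset_of_encard_le (Set.toFinite _)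
    · intro j hj
      rcases hj with rfl | rfl
      · exact h1 0
      · exact h2 0
    · rw [hall]
      have := Set.encard_pair (hne 0)
      exact this.symm.le
  have two : ∀ j, c j = c (i 0) ∨ c j = c (i 1) := by
    intro j
    obtain ⟨e, he, hE⟩ := hc (c j) ⟨_, rfl⟩
    have hd := hE.density (p 0) (fun j => hgen 0 j.1)
    have h1e := hE.one_le
    have : {j' : {j' // c j' = c j} | p 0 ∈ interior (T j'.1)}.Nonempty := by
      rw [← Set.encard_ne_zero, hd]
      exact_mod_cast (by omega : e ≠ 0)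
    obtain ⟨⟨j', hj'⟩, hmem⟩ := this
    have hj2 : j' ∈ ({i 0, i 1} : Set ι) := by
      rw [hpair]; exact hmem
    rcases hj2 with h | h
    · left; rw [← hj', h]
    · right
      rw [← hj']
      exact congrArg c h
  have k0 := key 0
  have k1 := key 1
  have k2 := key 2
  have k3 := key 3
  have k4 := key 4
  have e1 : (0 : Fin 5) + 1 = 1 := rfl
  have e2 : (1 : Fin 5) + 1 = 2 := rfl
  have e3 : (2 : Fin 5) + 1 = 3 := rfl
  have e4 : (3 : Fin 5) + 1 = 4 := rfl
  have e5 : (4 : Fin 5) + 1 = 0 := rfl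
  rw [e1] at k0
  rw [e2] at k1
  rw [e3] at k2
  rw [e4] at k3
  rw [e5] at k4
  rcases two (i 2) with h2' | h2'
  · rcases two (i 3) with h3' | h3'
    · exact k2 (h2'.trans h3'.symm)
    · rcases two (i 4) with h4' | h4'
      · exact k4 h4'
      · exact k3 (h3'.trans h4'.symm)
  · exact k1 h2'.symm

/-- Density of a family given in other coordinates by closed sets `S i`, each sandwiching a set
`H i` such that every point is in exactly `d` of the `H i`. -/
theorem density_of_coords {ι : Type} (Φ : (ℝ × ℝ) ≃ₜ Plane) (T : ι → Set Plane)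
    (S H : ι → Set (ℝ × ℝ)) (d : ℕ) (hTS : ∀ i, T i = Φ '' S i) (h1 : ∀ i, IsClosed (S i))
    (h2 : ∀ i, interior (S i) ⊆ H i) (h3 : ∀ i, H i ⊆ S i)
    (h4 : ∀ q, {i | q ∈ H i}.encard = d) :
    ∀ p : Plane, (∀ i, p ∉ frontier (T i)) → {i | p ∈ interior (T i)}.encard = d := by
  intro p hp
  obtain ⟨q, rfl⟩ := Φ.surjective p
  rw [← h4 q]
  congr 1
  ext i
  have hfi := hp i
  rw [hTS i, ← Φ.image_frontier] at hfi
  have hfi' : q ∉ frontier (S i) := fun h => hfi ⟨q, h, rfl⟩
  rw [(h1 i).frontier_eq] at hfi'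
  simp only [Set.mem_ofPred_eq]
  rw [hTS i, ← Φ.image_interior]
  constructor
  · rintro ⟨q', hq', he⟩
    have := Φ.injective he
    subst this
    exact h2 i hq'
  · intro hq
    refine ⟨q, ?_, rfl⟩
    by_contra hni
    exact hfi' ⟨h3 i hq, hni⟩

theorem mem_interior_of_coords (Φ : (ℝ × ℝ) ≃ₜ Plane) (A : Set (ℝ × ℝ)) (q : ℝ × ℝ)
    (h : q ∈ interior A) : Φ q ∈ interior (Φ '' A) := by
  rw [← Φ.image_interior]
  exact ⟨q, h, rfl⟩

theorem not_mem_frontier_of_coords (Φ : (ℝ × ℝ) ≃ₜ Plane) (A : Set (ℝ × ℝ)) (hA : IsClosed A)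
    (q : ℝ × ℝ) (h : q ∈ A → q ∈ interior A) : Φ q ∉ frontier (Φ '' A) := by
  rw [← Φ.image_frontier, hA.frontier_eq]
  rintro ⟨q', ⟨hq1, hq2⟩, he⟩
  have := Φ.injective he
  subst this
  exact hq2 (h hq1)

/-- isometric images of tiles are tiles -/
theorem isTile_image (e : Plane ≃ᵢ Plane) {P : Set Plane} (h : IsTile P) : IsTile (e '' P) := by
  obtain ⟨⟨F, hF, hP⟩, hint⟩ := h
  refine ⟨⟨e '' F, hF.image _, ?_⟩, ?_⟩
  · have := AffineMap.image_convexHull (𝕜 := ℝ)
      (e.toRealAffineIsometryEquiv.toAffineEquiv : Plane →ᵃ[ℝ] Plane) F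
    have he : ⇑(e.toRealAffineIsometryEquiv.toAffineEquiv : Plane →ᵃ[ℝ] Plane) = ⇑e := by
      ext x
      rfl
    rw [he] at this
    rw [hP]
    exact this
  · have := e.toHomeomorph.image_interior P
    obtain ⟨x, hx⟩ := hint
    refine ⟨e x, ?_⟩
    have h2 : e.toHomeomorph x ∈ e.toHomeomorph '' interior P := ⟨x, hx, rfl⟩
    rw [this] at h2
    exact h2

/-- coordinates with respect to a basis `a, b` -/
noncomputable def coordLin (a b : Plane) : (ℝ × ℝ) →ₗ[ℝ] Plane :=
  (LinearMap.fst ℝ ℝ ℝ).smulRight a + (LinearMap.snd ℝ ℝ ℝ).smulRight b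

theorem coordLin_apply (a b : Plane) (q : ℝ × ℝ) : coordLin a b q = q.1 • a + q.2 • b := by
  simp [coordLin]

theorem coordLin_injective (a b : Plane) (hab : LinearIndependent ℝ ![a, b]) :
    Function.Injective (coordLin a b) := by
  rw [← LinearMap.ker_eq_bot, LinearMap.ker_eq_bot']
  intro q hq
  rw [coordLin_apply] at hq
  have := LinearIndependent.pair_iff.1 hab q.1 q.2 hq
  exact Prod.ext this.1 this.2

noncomputable def coord (a b : Plane) (hab : LinearIndependent ℝ ![a, b]) :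
    (ℝ × ℝ) ≃L[ℝ] Plane :=
  (LinearMap.linearEquivOfInjective (coordLin a b) (coordLin_injective a b hab)
    (by simp)).toContinuousLinearEquiv

theorem coord_apply (a b : Plane) (hab : LinearIndependent ℝ ![a, b]) (q : ℝ × ℝ) :
    coord a b hab q = q.1 • a + q.2 • b := by
  simp [coord, coordLin_apply]

/-- a linear isometry exchanging two vectors of the same length -/
theorem exists_swap (a b : Plane) (h : ‖a‖ = ‖b‖) :
    ∃ R : Plane ≃ₗᵢ[ℝ] Plane, R a = b ∧ R b = a := by
  refine ⟨(ℝ ∙ (a - b))ᗮ.reflection, ?_, ?_⟩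
  · exact Submodule.reflection_sub h
  · have h1 := Submodule.reflection_sub h
    have h2 := congrArg (fun x => (ℝ ∙ (a - b))ᗮ.reflection x) h1
    simp only [Submodule.reflection_reflection] at h2
    exact h2.symm

end Pool.Agent.LibMP5dc1dd
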