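import Mathlib

open Set

namespace Pool.Agent.LibMP5dc1dd

/-- The Euclidean plane. -/
abbrev Plane : Type := EuclideanSpace ℝ (Fin 2)

/-- A tile: a closed convex polygon, i.e. the convex hull of finitely many points of the plane,
with nonempty interior. -/
def IsTile (A : Set Plane) : Prop :=
  (∃ F : Set Plane, F.Finite ∧ A = convexHull ℝ F) ∧ (interior A).Nonempty

/-- The family `T` of sets of the plane, indexed by `ι`, is a multiple tiling of density `d`:
`ι` is countable, `d ≥ 1`, every member is a tile, and every point which lies on the boundary of no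
member lies in the interior of exactly `d` members (counted with their index). -/
structure IsMultipleTiling {ι : Type} (T : ι → Set Plane) (d : ℕ) : Prop where
  countable : Countable ι
  one_le : 1 ≤ d
  tile : ∀ i, IsTile (T i)
  density : ∀ p : Plane, (∀ i, p ∉ frontier (T i)) → {i | p ∈ interior (T i)}.encard = d

/-- `T` is monohedral with prototile `P`: every member is the image of `P` under an isometry of
the plane (reflections allowed). -/
def IsMonohedral {ι : Type} (T : ι → Set Plane) (P : Set Plane) : Prop :=
  ∀ i, ∃ e : Plane ≃ᵢ Plane, T i = e '' P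

/-- `T` is reducible (as a multiple tiling of density `d`): its index set can be split, by a
colouring `c` taking at least two values, into nonempty classes, each of which is a multiple tiling
of some density less than `d`. -/
def IsReducible {ι : Type} (T : ι → Set Plane) (d : ℕ) : Prop :=
  ∃ (κ : Type) (c : ι → κ), (∃ i j, c i ≠ c j) ∧
    ∀ k ∈ Set.range c, ∃ e : ℕ, e < d ∧ IsMultipleTiling (fun i : {i : ι // c i = k} => T i.1) e

/-- The filled parallelogram with vertices `0, u, u + v, v`. -/
def parallelogram (u v : Plane) : Set Plane :=
  {p | ∃ s t : ℝ, 0 ≤ s ∧ s ≤ 1 ∧ 0 ≤ t ∧ t ≤ 1 ∧ p = s • u + t • v}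

/-- The filled triangle with vertices `0, u, v`. -/
def triangle (u v : Plane) : Set Plane :=
  {p | ∃ s t : ℝ, 0 ≤ s ∧ 0 ≤ t ∧ s + t ≤ 1 ∧ p = s • u + t • v}

end Pool.Agent.LibMP5dc1dd
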