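import Pool.Agent.Lib_MP_5dc1dd_co.Basic

open Set

namespace Pool.Agent.LibMP5dc1dd

/-- the twenty bars (lower left corner, vertical or not) in the `6 × 5` box -/
def pat : Fin 20 → ℤ × ℤ × Bool :=
  ![(0, 0, false), (0, 0, true), (1, 0, true), (2, 0, false), (3, 0, false), (5, 0, true),
    (0, 1, false), (2, 1, true), (3, 1, false), (3, 1, true), (4, 1, true), (0, 2, true),
    (1, 2, true), (2, 2, false), (5, 2, true), (0, 3, false), (3, 3, false), (0, 4, false),
    (2, 4, false), (3, 4, false)]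

def px (k : Fin 20) : ℤ := (pat k).1
def py (k : Fin 20) : ℤ := (pat k).2.1
def pv (k : Fin 20) : Bool := (pat k).2.2
def bw (o : Bool) : ℤ := if o then 1 else 3
def bh (o : Bool) : ℤ := if o then 3 else 1

theorem pat_bounds : ∀ k, 0 ≤ px k ∧ px k + bw (pv k) ≤ 6 ∧ 0 ≤ py k ∧ py k + bh (pv k) ≤ 5 := by
  decide

theorem pat_card (r s : ℤ) (hr : 0 ≤ r) (hr' : r < 6) (hs : 0 ≤ s) (hs' : s < 5) :
    (Finset.univ.filter (fun k : Fin 20 => px k ≤ r ∧ r < px k + bw (pv k) ∧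
      py k ≤ s ∧ s < py k + bh (pv k))).card = 2 := by
  interval_cases r <;> interval_cases s <;> decide

/-- the index type of the bars -/
abbrev Idx : Type := (ℤ × ℤ) × Fin 20

def ix (i : Idx) : ℤ := 6 * i.1.1 + px i.2
def iy (i : Idx) : ℤ := 5 * i.1.2 + py i.2
def iv (i : Idx) : Bool := pv i.2

theorem idx_count (X Y : ℤ) :
    {i : Idx | ix i ≤ X ∧ X < ix i + bw (iv i) ∧ iy i ≤ Y ∧ Y < iy i + bh (iv i)}.encard = 2 := by
  have h : {i : Idx | ix i ≤ X ∧ X < ix i + bw (iv i) ∧ iy i ≤ Y ∧ Y < iy i + bh (iv i)} =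
      (fun k : Fin 20 => (((X / 6, Y / 5), k) : Idx)) ''
        ((Finset.univ.filter (fun k : Fin 20 => px k ≤ X % 6 ∧ X % 6 < px k + bw (pv k) ∧
          py k ≤ Y % 5 ∧ Y % 5 < py k + bh (pv k)) : Finset (Fin 20)) : Set (Fin 20)) := by
    ext ⟨⟨i, j⟩, k⟩
    have hb := pat_bounds k
    simp only [ix, iy, iv, Set.mem_ofPred_eq, Set.mem_image, Finset.coe_filter,
      Finset.mem_univ, true_and, Prod.mk.injEq]
    constructor
    · rintro ⟨h1, h2, h3, h4⟩
      refine ⟨k, ⟨by omega, by omega, by omega, by omega⟩, ⟨by omega, by omega⟩, rfl⟩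
    · rintro ⟨k', ⟨h1, h2, h3, h4⟩, ⟨h5, h6⟩, h7⟩
      subst h7
      refine ⟨by omega, by omega, by omega, by omega⟩
  rw [h, Function.Injective.encard_image, Set.encard_coe_eq_coe_finsetCard, pat_card]
  · rfl
  · omega
  · omega
  · omega
  · omega
  · intro a b hab
    simpa using hab

/-- the cycle of five bars, consecutive ones overlapping -/
def cyc : Fin 5 → Idx :=
  ![((0, 0), 1), ((0, 0), 6), ((0, 0), 7), ((0, 0), 15), ((0, 0), 11)]

/-- points in the overlaps of consecutive bars (and triangles) of the cycle -/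
noncomputable def cyp : Fin 5 → ℝ × ℝ :=
  ![(1 / 11, 12 / 11), (23 / 11, 12 / 11), (23 / 11, 34 / 11), (1 / 11, 34 / 11), (1 / 11, 23 / 11)]

end Pool.Agent.LibMP5dc1dd
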